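import Pool.Agent.Helper39.DC.SubA

/-!
# MP_dbae29_al: a local-global principle for central subgroups of a group of type FP

Mess asked whether the centre of the fundamental group of a finite aspherical complex is finitely
generated. The fundamental group of a finite aspherical complex is of type FP over the integers
(the cellular chain complex of the universal cover is a finite resolution of the trivial module by
finitely generated free modules over the integral group ring).

We prove for every group `Γ` of type FP and every subgroup `A` of its centre (for example the whole
centre): `A` is finitely generated and the torsion of the quotient of `Γ` by `A` has bounded exponent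
if and only if every nontrivial element of `A` fails to be a `p ^ k`-th power in `Γ` for at least one
prime power `p ^ k`, which may depend on the element. So if the centre is not finitely generated,
then some nontrivial central element is a `p ^ k`-th power in `Γ` for every prime `p` and every `k`.
-/

set_option autoImplicit false

namespace Pool.Agent.Results.MP_dbae29_al.LocalGlobal

open Pool.Agent.Helper27.Mess

universe u

/-- Let `Γ` be a group of type FP over the integers and `A` a subgroup of the centre of `Γ`. Then the
following are equivalent: (1) `A` is finitely generated, and there is `B ≥ 1` such that `t ^ B` lies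
in `A` for every `t` in `Γ` some positive power of which lies in `A`; (2) for every nontrivial `z`
in `A` there are a prime `p` and a natural number `k` such that `z` is not a `p ^ k`-th power
in `Γ`. -/
theorem result (Γ : Type u) [Group Γ] (hΓ : IsTypeFP Γ) (A : Subgroup Γ)
    (hA : A ≤ Subgroup.center Γ) :
    (A.FG ∧ ∃ B : ℕ, 0 < B ∧ ∀ t : Γ, (∃ q : ℕ, 0 < q ∧ t ^ q ∈ A) → t ^ B ∈ A) ↔
      ∀ z ∈ A, z ≠ 1 → ∃ p k : ℕ, p.Prime ∧ ∀ t : Γ, t ^ p ^ k ≠ z :=
  Pool.Agent.Helper39.DC.sub_iff Γ hΓ A hA

end Pool.Agent.Results.MP_dbae29_al.LocalGlobal
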